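import Mathlib

/-!
# Project F5 (problem MP_2a1f98_al): five involutions suffice for n >= 4

The starting-point file ThreeReversibles.lean proves k(n) <= 6; this project proves k(n) <= 5 for
n >= 4 (so k(n) is 4 or 5), and for n = 3 the same for all linear parts other than 1, -1.
Everything below is linear algebra over C (plus one lemma on polynomials, POLY); the formal part
is ready in ThreeReversibles (`key`).
-/

set_option autoImplicit false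

noncomputable section

namespace Pool.Agent.L7h4.F5

open Matrix

abbrev Mat (n : ℕ) := Matrix (Fin n) (Fin n) ℂ

/-- unreduced upper Hessenberg matrices. -/
def Hes {n : ℕ} (H : Mat n) : Prop :=
  (∀ i j : Fin n, (j : ℕ) + 1 < i → H i j = 0) ∧ ∀ i j : Fin n, (j : ℕ) + 1 = i → H i j ≠ 0

/-- upper triangular, invertible diagonal. -/
def Upp {n : ℕ} (U : Mat n) : Prop := (∀ i j : Fin n, j < i → U i j = 0) ∧ ∀ i, U i i ≠ 0

/-- the last index. -/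
def last (n : ℕ) (hn : 0 < n) : Fin n := ⟨n - 1, by omega⟩

/-- the signed cycle `e_j ↦ e_{j+1}`, `e_{n-1} ↦ κ e_0`. -/
def cyc (n : ℕ) (κ : ℂ) : Mat n :=
  Matrix.of fun i j => if (j : ℕ) + 1 = i then 1 else if (i : ℕ) = 0 ∧ (j : ℕ) + 1 = n then κ else 0

/-- the flip `e_j ↦ e_{n-1-j}`. -/
def flip (n : ℕ) : Mat n := Matrix.of fun i j => if j = i.rev then 1 else 0

/-- `J = flip * cyc κ`:  `e_j ↦ e_{n-2-j}` for `j ≤ n-2`, `e_{n-1} ↦ κ e_{n-1}`. -/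
def JJ (n : ℕ) (κ : ℂ) : Mat n := flip n * cyc n κ

/-- the companion matrix of `t^n + ∑ c_j t^j`: `e_k ↦ e_{k+1}`, `e_{n-1} ↦ -∑ c_j e_j`. -/
def Comp (n : ℕ) (c : Fin n → ℂ) : Mat n :=
  Matrix.of fun i j => (if (j : ℕ) + 1 = i then 1 else 0) + (if (j : ℕ) + 1 = n then - c i else 0)

/-- the certificate: up to conjugation `G` contains for each `k` a transvection `1 + w⊗e_k`. -/
def Cert {n : ℕ} (G : Submonoid (Mat n)) : Prop :=
  ∃ P P' : Mat n, P * P' = 1 ∧ P' * P = 1 ∧ ∀ k : Fin n, ∃ w : Fin n → ℂ,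
    w ≠ 0 ∧ w k = 0 ∧ P * (1 + vecMulVec w (Pi.single k 1)) * P' ∈ G

/-- `A` is a product of `m` involutions generating a group with the certificate. -/
def Good {n : ℕ} (m : ℕ) (A : Mat n) : Prop :=
  ∃ L : Fin m → Mat n, (∀ i, L i * L i = 1) ∧ (List.ofFn L).prod = A ∧
    Cert (Submonoid.closure (Set.range L))

/-- PART POLY.  A homogeneous polynomial map `Γ` of degree `k ≥ 2` commuting with the
transvections `y ↦ y + t (y·w_j) e_j` vanishes.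
Proof: for `i ≠ j` the `i`-th component: `Γ_i(y + t (y·w_j) e_j) = Γ_i(y)` for all `t ∈ ℕ`, so
(polynomial in `t`) for all complex `t`, so `Γ_i(y + z e_j) = Γ_i(y)` whenever `y·w_j ≠ 0`, hence
always (times `y·w_j`, polynomial identity).  So `Γ_i = c_i X_i^k`.  In the `j`-th component take
`y_j = 0`: `c_j t^k s^k = t A`, `s = y·w_j`, for t = 1, 2: `(2^k - 2) c_j s^k = 0`; choose `y` with
`y_j = 0`, `s ≠ 0` (as `w_j ≠ 0`, `w_jj = 0`): `c_j = 0`. -/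
def S_POLY : Prop := ∀ (n k : ℕ) (Γ : Fin n → MvPolynomial (Fin n) ℂ) (w : Fin n → Fin n → ℂ),
  2 ≤ k → (∀ i, (Γ i).IsHomogeneous k) → (∀ j, w j ≠ 0 ∧ w j j = 0) →
  (∀ (i j : Fin n) (t : ℕ) (y : Fin n → ℂ),
    MvPolynomial.eval (y + ((t : ℂ) * (y ⬝ᵥ w j)) • (Pi.single j 1 : Fin n → ℂ)) (Γ i) =
      MvPolynomial.eval y (Γ i) +
        (t : ℂ) * (∑ m, MvPolynomial.eval y (Γ m) * w j m) * (Pi.single j 1 : Fin n → ℂ) i) →
  ∀ i, Γ i = 0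

/-- PART HESS: for an unreduced Hessenberg matrix the rows `e_last^* H^k` (k < n) are independent,
and so are the columns `H^k e_0` (this matrix is upper triangular with nonzero diagonal). -/
def S_HESS : Prop := ∀ (n : ℕ) (hn : 0 < n) (H : Mat n), Hes H →
  (Matrix.of fun k j : Fin n => (H ^ (k : ℕ)) (last n hn) j).det ≠ 0 ∧
  (Matrix.of fun i k : Fin n => (H ^ (k : ℕ)) i ⟨0, hn⟩).det ≠ 0 ∧
  (∀ k : ℕ, k + 1 < n → (H ^ k) (last n hn) ⟨0, hn⟩ = 0) ∧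
  (H ^ (n - 1)) (last n hn) ⟨0, hn⟩ ≠ 0 ∧
  (∀ (k : ℕ) (i : Fin n), k < i → (H ^ k) i ⟨0, hn⟩ = 0)

/-- PART ORBH (uses `S_HESS` as a hypothesis): a transvection with covector `e_last` and an
invertible unreduced Hessenberg matrix in `G` give the certificate.
Proof: `E` = matrix with rows `e_last^* R^k`; `R'^k T R^k = 1 + (R'^k w)⊗(e_last^* R^k)`;
`E (R'^k T R^k) E⁻¹ = 1 + (E R'^k w)⊗e_k`, and `(E R'^k w)_k = e_last^* w = 0`.  So
`P = E⁻¹`, `P' = E`. -/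
def S_ORBH : Prop := ∀ (n : ℕ) (hn : 0 < n) (G : Submonoid (Mat n)) (w : Fin n → ℂ) (R R' : Mat n),
  w ≠ 0 → w (last n hn) = 0 → (1 + vecMulVec w (Pi.single (last n hn) 1)) ∈ G → R ∈ G → R' ∈ G →
  R * R' = 1 → R' * R = 1 → Hes R → Cert G

/-- PART CYC: `κ² = 1`, `n ≥ 3`. -/
def S_CYC : Prop := ∀ (n : ℕ) (hn : 3 ≤ n) (κ : ℂ), κ * κ = 1 →
  flip n * flip n = 1 ∧ JJ n κ * JJ n κ = 1 ∧ flip n * JJ n κ = cyc n κ ∧
  cyc n κ * (JJ n κ * flip n) = 1 ∧ (JJ n κ * flip n) * cyc n κ = 1 ∧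
  (cyc n κ).det = κ * (-1) ^ (n - 1) ∧ Hes (cyc n κ) ∧
  (Pi.single (last n (by omega)) 1 : Fin n → ℂ) ᵥ* JJ n κ =
    κ • (Pi.single (last n (by omega)) 1 : Fin n → ℂ) ∧
  (∀ v : Fin n → ℂ, ∀ i : Fin n, (h : (i : ℕ) + 2 ≤ n) →
    (JJ n κ *ᵥ v) i = v ⟨n - 2 - i, by omega⟩) ∧
  (∀ A : Mat n, Upp A → Hes (A * cyc n κ)) ∧
  (∀ A : Mat n, ∀ i j : Fin n, (h : (j : ℕ) + 1 < n) → (A * cyc n κ) i j = A i ⟨j + 1, h⟩)

/-- PART CMP: companion matrices of `σ`-reciprocal polynomials are reversed by the flip, and the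
determinant. -/
def S_CMP : Prop := ∀ (n : ℕ) (hn : 2 ≤ n) (c : Fin n → ℂ) (σ : ℂ), σ * σ = 1 →
  (Comp n c).det = (-1) ^ n * c ⟨0, by omega⟩ ∧
  (c ⟨0, by omega⟩ = σ → (∀ i j : Fin n, (i : ℕ) + j = n → c i = σ * c j) →
    (flip n * Comp n c) * (flip n * Comp n c) = 1)

/-- PART PLC (pole placement; uses `S_HESS` as a hypothesis): with `K = (H^k e_0)_k`,
`η = (H^(n-1))_{last,0}` and `x = -η⁻¹ (H^n + ∑ c_j H^j) e_0`,
`(H + x⊗e_last) K = K Comp(c)`.  (columns `k < n-1`: `e_last^* H^k e_0 = 0`; column `n-1`: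
`H^n e_0 + x η`.) -/
def S_PLC : Prop := ∀ (n : ℕ) (hn : 2 ≤ n) (H : Mat n) (c : Fin n → ℂ), Hes H →
  (H + vecMulVec (fun i => - ((H ^ (n - 1)) (last n (by omega)) ⟨0, by omega⟩)⁻¹ *
      ((H ^ n) i ⟨0, by omega⟩ + ∑ j : Fin n, c j * (H ^ (j : ℕ)) i ⟨0, by omega⟩))
      (Pi.single (last n (by omega)) 1)) *
    (Matrix.of fun i k : Fin n => (H ^ (k : ℕ)) i ⟨0, by omega⟩) =
  (Matrix.of fun i k : Fin n => (H ^ (k : ℕ)) i ⟨0, by omega⟩) * Comp n c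

/-- PART TRI: triangularisations (the theorem `RevLin.triang` of the starting-point file
Pool/Agent/Results/MP_2a1f98_al/ThreeReversibles.lean gives one form; conjugate by the flip to
exchange lower and upper).  For `n ≥ 3`, `det A = ±1`: either
(1) `A` has an upper triangular form `U` with `U_00 U_last,last ≠ 1`, or
(2) an upper triangular form with all diagonal entries `λ`, `λ² = 1`, and `U_01 ≠ 0`, or
(3) `A = λ`, `λ² = 1`.
Proof: choose an eigenvector `v` (eigenvalue `a`) and a flag of invariant subspaces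
`⟨v⟩ ⊂ ... ⊂ V` where the last quotient has any prescribed eigenvalue `b` of `A` on `V/⟨v⟩`.  If (1)
fails for all choices, all such products `a b` are 1, which forces all eigenvalues to be equal to
one `λ` with `λ² = 1` (`n ≥ 3`).  Then if `A ≠ λ` choose `e_1` with `e_0 = (A-λ)e_1 ≠ 0`,
`(A-λ) e_0 = 0` and complete to a triangular basis. -/
def S_TRI : Prop := ∀ (n : ℕ) (hn : 3 ≤ n) (A : Mat n), (A.det = 1 ∨ A.det = -1) →
  (∃ P P' U : Mat n, P * P' = 1 ∧ P' * P = 1 ∧ P' * A * P = U ∧ Upp U ∧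
    U ⟨0, by omega⟩ ⟨0, by omega⟩ * U (last n (by omega)) (last n (by omega)) ≠ 1) ∨
  (∃ (P P' U : Mat n) (l : ℂ), P * P' = 1 ∧ P' * P = 1 ∧ P' * A * P = U ∧ Upp U ∧ l * l = 1 ∧
    (∀ i, U i i = l) ∧ U ⟨0, by omega⟩ ⟨1, by omega⟩ ≠ 0) ∨
  (∃ l : ℂ, l * l = 1 ∧ A = l • (1 : Mat n))

/-- PART SCL: scaling in case (2): `D = diag(1, 1, τ, τ², ...)`, i.e. `D_0 = 1`, `D_j = τ^(j-1)`;
the matrix `H_τ = (D⁻¹ U D) cyc κ` is polynomial in `τ` in its columns `j < n-1` and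
`H_0 e_0 = U_01 e_0 + U_11 e_1`; so `((H_0)^(n-2))_00 = U_01^(n-2) ≠ 0`
(paths that leave 0 do not come back), and by continuity some `τ ≠ 0` works. -/
def S_SCL : Prop := ∀ (n : ℕ) (hn : 3 ≤ n) (U : Mat n) (l : ℂ), Upp U → l * l = 1 →
  (∀ i, U i i = l) → U ⟨0, by omega⟩ ⟨1, by omega⟩ ≠ 0 →
  ∃ P P' V : Mat n, P * P' = 1 ∧ P' * P = 1 ∧ P' * U * P = V ∧ Upp V ∧ (∀ i, V i i = l) ∧
    ((V * cyc n 1) ^ (n - 2)) ⟨0, by omega⟩ ⟨0, by omega⟩ ≠ 0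

/-- PART ENT: entries of `H^(n-2) e_0` for `H = U cyc κ`, `U` upper triangular: the `(n-2,0)`
entry is `∏_{1 ≤ j ≤ n-2} U_jj`, so times `U_00 U_last,last` it is `det U`; the `(0,0)` entry does
not depend on `κ`. -/
def S_ENT : Prop := ∀ (n : ℕ) (hn : 3 ≤ n) (U : Mat n), Upp U →
  (∀ κ : ℂ, ((U * cyc n κ) ^ (n - 2)) ⟨n - 2, by omega⟩ ⟨0, by omega⟩ *
    (U ⟨0, by omega⟩ ⟨0, by omega⟩ * U (last n (by omega)) (last n (by omega))) = U.det) ∧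
  (∀ κ κ' : ℂ, ((U * cyc n κ) ^ (n - 2)) ⟨0, by omega⟩ ⟨0, by omega⟩ =
    ((U * cyc n κ') ^ (n - 2)) ⟨0, by omega⟩ ⟨0, by omega⟩)

/-- PART CON (uses S_HESS, S_ORBH, S_CYC, S_CMP, S_PLC): the construction.  `U` upper triangular,
`δ = det U = ±1`, `κ² = 1`, `H = U cyc κ`, and
`δ (H^(n-2))_{n-2,0} ≠ 1 + κ δ (H^(n-2))_{00}`.  Then `U` is `Good 5`.
Proof: `σ = κ δ`.  For `c = p_0 : t^n + σ` and `c = p_1 : t^n + σ + t + σ t^(n-1)`: `K`, `x_c` as in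
S_PLC, `R_c = H + x_c⊗e_last = K Comp(c) K⁻¹`, `det R_c = (-1)^n σ = - det H`,
`R_c = H (1 - 2 a_c⊗e_last)`, `a_c = -(1/2) H⁻¹ x_c`, `(a_c)_last = 1` (determinants), so
`S_c = 1 - 2 a_c⊗e_last` is an involution, `U = H (cyc κ)⁻¹ = R_c S_c JJ flip`,
`R_c = (K flip K⁻¹)(K flip Comp(c) K⁻¹)`: five involutions.
`JJ S_c JJ = 1 - 2 κ (JJ a_c)⊗e_last`, `S_c (JJ S_c JJ) = 1 + 2 (a_c - κ JJ a_c)⊗e_last`.
`R_c` is unreduced Hessenberg (only the last column changes).  By S_ORBH it remains: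
`a_c ≠ κ JJ a_c` for one of the two `c`.  Otherwise the difference
`a_{p_1} - a_{p_0} = (1/(2η)) v`, `v = e_0 + σ H^(n-2) e_0`, satisfies `v = κ JJ v`; its entry at
`n-2`: `σ z_{n-2} = κ (1 + σ z_0)`, times `κ`: contradiction. -/
def S_CON : Prop := ∀ (n : ℕ) (hn : 3 ≤ n) (U : Mat n) (κ : ℂ), Upp U →
  (U.det = 1 ∨ U.det = -1) → κ * κ = 1 →
  U.det * ((U * cyc n κ) ^ (n - 2)) ⟨n - 2, by omega⟩ ⟨0, by omega⟩ ≠
    1 + κ * U.det * ((U * cyc n κ) ^ (n - 2)) ⟨0, by omega⟩ ⟨0, by omega⟩ →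
  Good 5 U

/-- PART IDN (uses S_ORBH, S_CYC): `n ≥ 4`, `l² = 1`: `l • 1` is `Good 5`:
`κ = -1`, `J = JJ n (-1)`, `D = diag(-1,1,...,1,-1)`, `w = e_1 + e_{n-3}`, `T = 1 + w⊗e_last`:
`J w = w`, `e_last^* J = - e_last^*`, `D w = w`, `e_last^* D = - e_last^*`, so `J T J = T⁻¹ = D T D`;
`D flip = flip D`; the five involutions `J, J T, D T, flip, l D flip` have product `l`;
`T = J (J T)` and `cyc = flip J` are in the group, `R = cyc n (-1)`, `R' = J flip`. -/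
def S_IDN : Prop := ∀ (n : ℕ) (_ : 4 ≤ n) (l : ℂ), l * l = 1 → Good 5 (l • (1 : Mat n))

/-- PART GCJ: `Good m` is invariant under conjugation. -/
def S_GCJ : Prop := ∀ (n m : ℕ) (A P P' : Mat n), P * P' = 1 → P' * P = 1 →
  Good m (P' * A * P) → Good m A

/-- PART ALL (uses S_TRI, S_SCL, S_ENT, S_CON, S_IDN, S_GCJ): assembly. Case (1) of S_TRI: with
`z = δ z_{n-2} = δ²/(U_00 U_ll) ≠ 1`: not both `z = 1 + δ z_0` and `z = 1 - δ z_0`.  Case (2): after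
S_SCL, `δ z_{n-2} = 1` (as `U_00 U_ll = l² = 1`), `z_0 ≠ 0`, `κ = 1`. -/
def S_ALL : Prop := (∀ (n : ℕ), 4 ≤ n → ∀ A : Mat n, (A.det = 1 ∨ A.det = -1) → Good 5 A) ∧
  (∀ A : Mat 3, (A.det = 1 ∨ A.det = -1) → A ≠ 1 → A ≠ -1 → Good 5 A)

end Pool.Agent.L7h4.F5
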