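import Mathlib
import Pool.Agent.L7h4.FR.Five
import Pool.Agent.Results.MP_2a1f98_al.ThreeReversibles

/-! The certificate gives `NoCov` of the starting-point file. -/

set_option autoImplicit false

noncomputable section

namespace Pool.Agent.L7h4.F5

open Matrix
open Pool.Agent.Results.MP_2a1f98_al.ThreeReversibles
open Pool.Agent.Results.MP_2a1f98_al.ThreeReversibles.RevMaps
open Pool.Agent.Results.MP_2a1f98_al.ThreeReversibles.FormalMap

variable {n : ℕ}

theorem W_sq (w : Fin n → ℂ) (j : Fin n) (hw : w j = 0) :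
    vecMulVec w (Pi.single j 1 : Fin n → ℂ) * vecMulVec w (Pi.single j 1 : Fin n → ℂ) = 0 := by
  ext a b
  rw [Matrix.mul_apply]
  simp only [vecMulVec_apply, Matrix.zero_apply]
  apply Finset.sum_eq_zero
  intro c _
  by_cases hc : c = j
  · subst hc; rw [hw]; ring
  · rw [Pi.single_eq_of_ne hc]; ring

theorem pow_trans (w : Fin n → ℂ) (j : Fin n) (hw : w j = 0) (t : ℕ) :
    (1 + vecMulVec w (Pi.single j 1 : Fin n → ℂ)) ^ t =
      1 + (t : ℂ) • vecMulVec w (Pi.single j 1 : Fin n → ℂ) := by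
  induction t with
  | zero => simp
  | succ t ih =>
    rw [pow_succ, ih]
    rw [mul_add, add_mul, add_mul, mul_one, one_mul, mul_one, smul_mul_assoc, W_sq w j hw]
    push_cast
    rw [add_smul, one_smul, smul_zero]
    abel

theorem conj_pow (P P' N : Mat n) (h : P' * P = 1) (h' : P * P' = 1) (t : ℕ) :
    (P * N * P') ^ t = P * N ^ t * P' := by
  induction t with
  | zero => simp [h']
  | succ t ih =>
    rw [pow_succ, ih, pow_succ]
    calc P * N ^ t * P' * (P * N * P') = P * N ^ t * (P' * P) * N * P' := by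
          simp only [mul_assoc]
      _ = P * (N ^ t * N) * P' := by rw [h, mul_one]; simp only [mul_assoc]

/-- the polynomial with the same values as `PF`. -/
def PG (a : (Fin n → ℕ) → ℂ) (k : ℕ) : MvPolynomial (Fin n) ℂ :=
  ∑ κ ∈ Finset.piAntidiag Finset.univ k,
    MvPolynomial.monomial (Finsupp.equivFunOnFinite.symm κ) (a κ)

theorem eval_PG (a : (Fin n → ℕ) → ℂ) (k : ℕ) (y : Fin n → ℂ) :
    MvPolynomial.eval y (PG a k) = PF a k y := by
  classical
  unfold PG PF
  rw [map_sum]
  apply Finset.sum_congr rfl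
  intro κ _
  rw [MvPolynomial.eval_monomial, Finsupp.prod_fintype _ _ (fun i => pow_zero _)]
  rfl

theorem hom_PG (a : (Fin n → ℕ) → ℂ) (k : ℕ) : (PG a k).IsHomogeneous k := by
  classical
  unfold PG
  apply MvPolynomial.IsHomogeneous.sum
  intro κ hκ
  apply MvPolynomial.isHomogeneous_monomial
  rw [Finsupp.degree_eq_sum]
  exact mem_pi.mp hκ

theorem cert_nocov (hPOLY : S_POLY) {m : ℕ} (L : Fin m → Mat n) (hL : ∀ i, L i * L i = 1)
    (hc : Cert (Submonoid.closure (Set.range L))) (k : ℕ) (hk : 2 ≤ k) :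
    NoCov k (List.ofFn L) := by
  classical
  intro φ hφ hinv
  obtain ⟨P, P', hPP', hP'P, hw⟩ := hc
  have hclos : ∀ M ∈ Submonoid.closure (Set.range L),
      M.det ≠ 0 ∧ ∀ v ∈ TJ n k, φ (Ad M v) = φ v := by
    intro M hM
    induction hM using Submonoid.closure_induction with
    | mem M hM =>
      obtain ⟨i, rfl⟩ := hM
      refine ⟨?_, fun v hv => hinv (L i) (by simp [List.mem_ofFn]) v hv⟩
      intro h0
      have := congrArg Matrix.det (hL i)
      rw [Matrix.det_mul, h0, mul_zero, Matrix.det_one] at this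
      exact zero_ne_one this
    | one => exact ⟨by simp, fun v _ => by rw [Ad_one]⟩
    | mul x y _ _ hx hy =>
      exact ⟨by rw [Matrix.det_mul]; exact mul_ne_zero hx.1 hy.1, Ad_inv φ hx.2 hy.2⟩
  set φ' : T n →ₗ[ℂ] ℂ := φ ∘ₗ AdL P with hφ'
  have hφ'a : ∀ v, φ' v = φ (Ad P v) := fun v => rfl
  have hPdet : P.det ≠ 0 := by
    intro h0
    have := congrArg Matrix.det hPP'
    rw [Matrix.det_mul, h0, zero_mul, Matrix.det_one] at this
    exact zero_ne_one this
  have hconj : ∀ N : Mat n, P * N * P' ∈ Submonoid.closure (Set.range L) →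
      N.det ≠ 0 ∧ ∀ v ∈ TJ n k, φ' (Ad N v) = φ' v := by
    intro N hN
    obtain ⟨h1, h2⟩ := hclos _ hN
    refine ⟨?_, ?_⟩
    · intro h0
      apply h1
      rw [Matrix.det_mul, Matrix.det_mul, h0]
      ring
    · intro v hv
      rw [hφ'a, hφ'a, Ad_Ad]
      have e : P * N = P * N * P' * P := by rw [mul_assoc (P * N), hP'P, mul_one]
      rw [e, ← Ad_Ad]
      exact h2 _ (Ad_mem P hv)
  choose w hw0 hww hwm using hw
  have hcon2 : ∀ (j : Fin n) (t : ℕ),
      (1 + (t : ℂ) • vecMulVec (w j) (Pi.single j 1 : Fin n → ℂ)).det ≠ 0 ∧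
      ∀ v ∈ TJ n k, φ' (Ad (1 + (t : ℂ) • vecMulVec (w j) (Pi.single j 1 : Fin n → ℂ)) v) =
        φ' v := by
    intro j t
    apply hconj
    rw [← pow_trans (w j) j (hww j) t, ← conj_pow P P' _ hP'P hPP' t]
    exact Submonoid.pow_mem _ (hwm j) t
  have hφ'0 : ∀ v ∈ TJ n (k + 1), φ' v = 0 := fun v hv => hφ _ (Ad_mem P hv)
  have h0 : ∀ l, ∀ a ∈ J n (k + 1), comp φ' l a = 0 := fun l a ha => hφ'0 _ (single_mem ha l)
  set a : Fin n → (Fin n → ℕ) → ℂ := fun l κ => (Nat.multinomial Finset.univ κ : ℂ) *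
        comp φ' l (MvPowerSeries.monomial (Finsupp.equivFunOnFinite.symm κ) 1) with ha
  have hG : ∀ l y, comp φ' l ((∑ i, y i • (MvPowerSeries.X i : PS n)) ^ k) = PF (a l) k y :=
    fun l y => Gfun k (comp φ' l) y
  -- equivariance
  have heq : ∀ (M : Mat n), M.det ≠ 0 → (∀ v ∈ TJ n k, φ' (Ad M v) = φ' v) →
      ∀ (l : Fin n) (y : Fin n → ℂ), PF (a l) k (y ᵥ* M) = ∑ j, M j l * PF (a j) k y := by
    intro M hM hMi l y
    have hlinJ : (∑ i, y i • (MvPowerSeries.X i : PS n)) ∈ J n 1 := by
      apply Ideal.sum_mem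
      intro i _
      exact J_smul _ (X_mem_J i)
    have hpowJ : ∀ m : ℕ, (∑ i, y i • (MvPowerSeries.X i : PS n)) ^ m ∈ J n m := by
      intro m
      induction m with
      | zero => exact J_zero _
      | succ m ih =>
        rw [pow_succ]
        exact J_mul ih hlinJ
    have h1 := star k φ' M hM hMi l _ (hpowJ k)
    have h2 : CS (tup M) (tup_mem _) ((∑ i, y i • (MvPowerSeries.X i : PS n)) ^ k) =
        (∑ j, ((y ᵥ* M) j) • (MvPowerSeries.X j : PS n)) ^ k := by
      rw [map_pow, map_sum]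
      congr 1
      have h3 : ∀ i, CS (tup M) (tup_mem _) (y i • (MvPowerSeries.X i : PS n)) =
          ∑ j, (y i * M i j) • (MvPowerSeries.X j : PS n) := by
        intro i
        rw [map_smul]
        have hx : CS (tup M) (tup_mem _) (MvPowerSeries.X i : PS n) =
            ∑ j, M i j • (MvPowerSeries.X j : PS n) := CS_X (tup M) (tup_mem M) i
        refine (congrArg (fun z => y i • z) hx).trans ?_
        show y i • (∑ j, M i j • (MvPowerSeries.X j : PS n)) = _
        rw [Finset.smul_sum]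
        apply Finset.sum_congr rfl
        intro j _
        rw [smul_smul]
      simp only [h3]
      rw [Finset.sum_comm]
      apply Finset.sum_congr rfl
      intro j _
      rw [← Finset.sum_smul]
      rfl
    rw [h2, hG] at h1
    rw [h1]
    apply Finset.sum_congr rfl
    intro j _
    rw [hG]
  have hzero : ∀ i, PG (a i) k = 0 := by
    apply hPOLY n k (fun i => PG (a i) k) w hk (fun i => hom_PG (a i) k)
      (fun j => ⟨hw0 j, hww j⟩)
    intro i j t y
    have h1 := heq _ (hcon2 j t).1 (hcon2 j t).2 i y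
    have e1 : y ᵥ* (1 + (t : ℂ) • vecMulVec (w j) (Pi.single j 1 : Fin n → ℂ)) =
        y + ((t : ℂ) * (y ⬝ᵥ w j)) • (Pi.single j 1 : Fin n → ℂ) := by
      rw [Matrix.vecMul_add, Matrix.vecMul_one, Matrix.vecMul_smul]
      congr 1
      funext b
      simp only [Pi.smul_apply, smul_eq_mul, Matrix.vecMul, dotProduct, vecMulVec_apply]
      rw [mul_assoc, Finset.sum_mul]
      congr 1
      apply Finset.sum_congr rfl
      intro c _
      ring
    rw [e1] at h1
    simp only [eval_PG]
    rw [h1]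
    have e2 : ∀ m : Fin n, (1 + (t : ℂ) • vecMulVec (w j) (Pi.single j 1 : Fin n → ℂ)) m i =
        (1 : Mat n) m i + (t : ℂ) * (w j m * (Pi.single j 1 : Fin n → ℂ) i) := by
      intro m
      rw [Matrix.add_apply, Matrix.smul_apply, vecMulVec_apply, smul_eq_mul]
    simp only [e2, add_mul]
    rw [Finset.sum_add_distrib]
    congr 1
    · rw [Finset.sum_eq_single i]
      · rw [Matrix.one_apply_eq, one_mul]
      · intro b _ hb
        rw [Matrix.one_apply_ne hb, zero_mul]
      · simp
    · rw [Finset.mul_sum, Finset.sum_mul]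
      apply Finset.sum_congr rfl
      intro m _
      ring
  have hall : ∀ (l : Fin n), ∀ κ : Fin n → ℕ, ∑ i, κ i = k → a l κ = 0 := by
    intro l
    exact PF_coeff (a l) k 1 one_ne_zero (fun y _ => by rw [← eval_PG, hzero l, map_zero])
  have hmono : ∀ (l : Fin n) (m : Fin n →₀ ℕ), m.degree = k →
      comp φ' l (MvPowerSeries.monomial m 1) = 0 := by
    intro l m hm
    have h1 := hall l (fun i => m i) (by rw [← Finsupp.degree_eq_sum]; exact hm)
    have h2 : Finsupp.equivFunOnFinite.symm (fun i => m i) = m := by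
      ext i; rfl
    simp only [ha, h2] at h1
    rcases mul_eq_zero.mp h1 with h3 | h3
    · exfalso
      have := Nat.multinomial_pos (s := Finset.univ) (f := fun i => m i)
      have h4 : Nat.multinomial Finset.univ (fun i => m i) = 0 := by exact_mod_cast h3
      omega
    · exact h3
  have hφ'z : ∀ v ∈ TJ n k, φ' v = 0 := by
    intro v hv
    rw [sum_comp]
    apply Finset.sum_eq_zero
    intro l _
    exact fun_vanish k (comp φ' l) (h0 l) (v l) (hv l) (fun m hm _ => hmono l m hm)
  intro v hv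
  have h5 := hφ'z (Ad P' v) (Ad_mem P' hv)
  rw [hφ'a, Ad_Ad, hPP', Ad_one] at h5
  exact h5

/-- a formal map whose linear part is `Good m` is a product of `m` involutions. -/
theorem good_prods (hPOLY : S_POLY) {m : ℕ} (F : FormalMap n) (h : Good m F.lin) :
    F ∈ Prods (Invol n) m := by
  obtain ⟨L, hL, hprod, hc⟩ := h
  obtain ⟨τ, hτ1, hτ2⟩ := key F L hL hprod (fun k hk => cert_nocov hPOLY L hL hc k hk)
  exact ⟨τ, hτ1, hτ2⟩

end Pool.Agent.L7h4.F5
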