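import Mathlib
import Pool.Agent.L7h4.FR.Five

/-! Matrices with a cyclic vector are `Good 4`. -/

set_option autoImplicit false

noncomputable section

namespace Pool.Agent.L7h4.F5

open Matrix

variable {n : ℕ}

/-- `A` has a cyclic vector (that is, `A` is nonderogatory). -/
def Cyclic (A : Mat n) : Prop :=
  ∃ v : Fin n → ℂ, (Matrix.of fun i k : Fin n => (A ^ (k : ℕ) *ᵥ v) i).det ≠ 0

theorem flip_sq : flip n * flip n = 1 := by
  ext i j
  rw [Matrix.mul_apply]
  simp only [flip, Matrix.of_apply]
  rw [Finset.sum_eq_single i.rev]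
  · by_cases h : j = i
    · subst h; simp
    · rw [Matrix.one_apply_ne (Ne.symm h)]
      simp [h]
  · intro b _ hb
    rw [if_neg hb, zero_mul]
  · simp

theorem Comp_apply (c : Fin n → ℂ) (i j : Fin n) : Comp n c i j =
    (if (j : ℕ) + 1 = i then 1 else 0) + (if (j : ℕ) + 1 = n then - c i else 0) := rfl

theorem Comp_hes (c : Fin n → ℂ) : Hes (Comp n c) := by
  constructor
  · intro i j h
    rw [Comp_apply, if_neg (by omega), if_neg (by omega), add_zero]
  · intro i j h
    rw [Comp_apply, if_pos h, if_neg (by omega), add_zero]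
    exact one_ne_zero

/-- a matrix with a cyclic vector is similar to a companion matrix. -/
theorem cyclic_comp (A : Mat n) (h : Cyclic A) :
    ∃ (P P' : Mat n) (c : Fin n → ℂ), P * P' = 1 ∧ P' * P = 1 ∧ P' * A * P = Comp n c := by
  obtain ⟨v, hv⟩ := h
  set K : Mat n := Matrix.of fun i k : Fin n => (A ^ (k : ℕ) *ᵥ v) i with hK
  have hu : IsUnit K.det := isUnit_iff_ne_zero.mpr hv
  set c : Fin n → ℂ := - (K⁻¹ *ᵥ (A ^ n *ᵥ v)) with hc
  have h1 : K * K⁻¹ = 1 := Matrix.mul_nonsing_inv K hu
  have h2 : K⁻¹ * K = 1 := Matrix.nonsing_inv_mul K hu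
  have hKc : K *ᵥ c = - (A ^ n *ᵥ v) := by
    rw [hc, Matrix.mulVec_neg, Matrix.mulVec_mulVec, h1, Matrix.one_mulVec]
  have hAK : A * K = K * Comp n c := by
    ext i k
    have e1 : (A * K) i k = (A ^ ((k : ℕ) + 1) *ᵥ v) i := by
      rw [pow_succ', ← Matrix.mulVec_mulVec]
      rw [Matrix.mul_apply]
      rfl
    rw [e1, Matrix.mul_apply]
    simp only [Comp_apply, mul_add, Finset.sum_add_distrib]
    by_cases hk : (k : ℕ) + 1 < n
    · rw [Finset.sum_eq_single ⟨(k : ℕ) + 1, hk⟩]
      · rw [if_pos rfl, mul_one]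
        have : ∑ x : Fin n, K i x * (if (k : ℕ) + 1 = n then -c x else 0) = 0 := by
          apply Finset.sum_eq_zero
          intro x _
          rw [if_neg (by omega), mul_zero]
        rw [this, add_zero]
        rfl
      · intro b _ hb
        rw [if_neg, mul_zero]
        intro h3
        apply hb
        apply Fin.ext
        simp only
        omega
      · simp
    · have hk' : (k : ℕ) + 1 = n := by omega
      have : ∑ x : Fin n, K i x * (if (k : ℕ) + 1 = (x : ℕ) then (1 : ℂ) else 0) = 0 := by
        apply Finset.sum_eq_zero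
        intro x _
        rw [if_neg (by omega), mul_zero]
      rw [this, zero_add]
      have e2 : ∑ x : Fin n, K i x * (if (k : ℕ) + 1 = n then -c x else 0) = - (K *ᵥ c) i := by
        simp only [if_pos hk', Matrix.mulVec, dotProduct, mul_neg, Finset.sum_neg_distrib]
      rw [e2, hKc, hk']
      simp
  refine ⟨K, K⁻¹, c, h1, h2, ?_⟩
  rw [mul_assoc, hAK, ← mul_assoc, h2, one_mul]

theorem vv_mul (a b : Fin n → ℂ) (k : Fin n) :
    vecMulVec a (Pi.single k 1 : Fin n → ℂ) * vecMulVec b (Pi.single k 1 : Fin n → ℂ) =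
      b k • vecMulVec a (Pi.single k 1 : Fin n → ℂ) := by
  ext i j
  rw [Matrix.mul_apply, Matrix.smul_apply, vecMulVec_apply, smul_eq_mul]
  simp only [vecMulVec_apply]
  rw [Finset.sum_eq_single k]
  · rw [Pi.single_eq_same]; ring
  · intro c _ hc
    rw [Pi.single_eq_of_ne hc]; ring
  · simp

/-- the reflections. -/
def rfl2 (a : Fin n → ℂ) (k : Fin n) : Mat n := 1 - vecMulVec ((2 : ℂ) • a) (Pi.single k 1)

theorem rfl2_mul (a b : Fin n → ℂ) (k : Fin n) (_ha : a k = 1) (hb : b k = 1) :
    rfl2 a k * rfl2 b k = 1 + vecMulVec ((2 : ℂ) • a - (2 : ℂ) • b) (Pi.single k 1) := by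
  unfold rfl2
  rw [sub_mul, mul_sub, mul_sub, one_mul, one_mul, mul_one, vv_mul]
  simp only [Pi.smul_apply, hb, smul_eq_mul, mul_one, Matrix.sub_vecMulVec]
  rw [two_smul ℂ (vecMulVec _ _)]
  abel

theorem rfl2_sq (a : Fin n → ℂ) (k : Fin n) (ha : a k = 1) : rfl2 a k * rfl2 a k = 1 := by
  rw [rfl2_mul a a k ha ha]
  simp

theorem good_comp (hORBH : S_ORBH) (hCMP : S_CMP) (hn : 2 ≤ n) (cA : Fin n → ℂ)
    (hdet : (Comp n cA).det = 1 ∨ (Comp n cA).det = -1)
    (h2 : n = 2 → Comp n cA * Comp n cA ≠ 1) : Good 4 (Comp n cA) := by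
  classical
  have hn0 : 0 < n := by omega
  -- sign
  set σ : ℂ := cA ⟨0, hn0⟩ with hσ
  have hCA := (hCMP n hn cA 1 (by norm_num)).1
  have hm1 : ((-1 : ℂ) ^ n) * ((-1 : ℂ) ^ n) = 1 := by
    rw [← mul_pow]; norm_num
  have hσ2 : σ * σ = 1 := by
    have : (Comp n cA).det * (Comp n cA).det = 1 := by
      rcases hdet with h | h <;> rw [h] <;> norm_num
    rw [hCA] at this
    calc σ * σ = ((-1 : ℂ) ^ n * (-1 : ℂ) ^ n) * (σ * σ) := by rw [hm1, one_mul]
      _ = (-1) ^ n * cA ⟨0, by omega⟩ * ((-1) ^ n * cA ⟨0, by omega⟩) := by rw [hσ]; ring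
      _ = 1 := this
  -- the target polynomial
  have hex : ∃ c : Fin n → ℂ, c ≠ cA ∧ c ⟨0, hn0⟩ = σ ∧
      (∀ i j : Fin n, (i : ℕ) + j = n → c i = σ * c j) := by
    by_cases h0 : (fun i : Fin n => if (i : ℕ) = 0 then σ else 0) ≠ cA
    · refine ⟨_, h0, by simp, ?_⟩
      intro i j hij
      have hi := i.2
      have hj := j.2
      rw [if_neg (by omega), if_neg (by omega), mul_zero]
    · have h0 := not_not.mp h0
      -- cA is `t^n + σ`
      by_cases hn2 : n = 2
      · subst hn2
        have hs1 : σ = 1 := by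
          by_contra hne
          have hs : σ = -1 := by
            have h5 : (σ - 1) * (σ + 1) = 0 := by linear_combination hσ2
            rcases mul_eq_zero.mp h5 with h | h
            · exact absurd (sub_eq_zero.mp h) hne
            · exact eq_neg_of_add_eq_zero_left h
          apply h2 rfl
          have e : cA = fun i : Fin 2 => if (i : ℕ) = 0 then (-1 : ℂ) else 0 := by
            rw [← h0, hs]
          rw [e]
          ext i j
          fin_cases i <;> fin_cases j <;>
            simp [Matrix.mul_apply, Fin.sum_univ_two, Comp_apply]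
        refine ⟨fun _ => 1, ?_, by simp [hs1], ?_⟩
        · intro h
          have := congrFun h 1
          rw [← h0] at this
          norm_num at this
        · intro i j _
          simp [hs1]
      · refine ⟨fun i => if (i : ℕ) = 0 then σ else if (i : ℕ) = 1 then 1 else
          if (i : ℕ) = n - 1 then σ else 0, ?_, by simp, ?_⟩
        · intro h
          have := congrFun h ⟨1, by omega⟩
          rw [← h0] at this
          norm_num at this
        · intro i j hij
          have hi := i.2
          have hj := j.2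
          simp only
          rw [if_neg (by omega), if_neg (by omega : ¬ ((j : ℕ) = 0))]
          by_cases hi1 : (i : ℕ) = 1
          · rw [if_pos hi1, if_neg (by omega), if_pos (by omega), hσ2]
          · rw [if_neg hi1]
            by_cases hi2 : (i : ℕ) = n - 1
            · rw [if_pos hi2, if_pos (by omega : (j : ℕ) = 1), mul_one]
            · rw [if_neg hi2, if_neg (by omega), if_neg (by omega), mul_zero]
  obtain ⟨c, hcne, hc0, hcr⟩ := hex
  have hrev := (hCMP n hn c σ hσ2).2 hc0 hcr
  set R : Mat n := Comp n c with hR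
  set H : Mat n := Comp n cA with hH
  set l : Fin n := last n hn0 with hl
  set w : Fin n → ℂ := fun i => if h : (i : ℕ) + 1 < n then
    cA ⟨(i : ℕ) + 1, h⟩ - c ⟨(i : ℕ) + 1, h⟩ else 0 with hw
  have hwl : w l = 0 := by
    rw [hw]
    simp only
    rw [dif_neg]
    rw [hl]
    unfold last
    simp only
    omega
  have hw0 : w ≠ 0 := by
    intro h
    apply hcne
    funext i
    by_cases hi : (i : ℕ) = 0
    · have : i = ⟨0, hn0⟩ := Fin.ext hi
      rw [this, hc0]
    · have h3 := congrFun h ⟨(i : ℕ) - 1, by omega⟩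
      rw [hw] at h3
      simp only at h3
      rw [dif_pos (by omega)] at h3
      have e : (⟨(i : ℕ) - 1 + 1, by omega⟩ : Fin n) = i := Fin.ext (by simp only; omega)
      rw [e] at h3
      simp only [Pi.zero_apply] at h3
      exact (sub_eq_zero.mp h3).symm
  -- `R = H (1 + w ⊗ e)`
  have hHw : ∀ i, ∑ j, H i j * w j = cA i - c i := by
    intro i
    have e0 : ∀ j : Fin n, H i j * w j = (if (j : ℕ) + 1 = i then w j else 0) := by
      intro j
      rw [hH, Comp_apply]
      by_cases hj : (j : ℕ) + 1 = n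
      · have : w j = 0 := by
          rw [hw]; simp only; rw [dif_neg (by omega)]
        rw [this, mul_zero]
        simp
      · rw [if_neg hj, add_zero]
        split_ifs <;> simp
    simp only [e0]
    by_cases hi : (i : ℕ) = 0
    · have e1 : i = ⟨0, hn0⟩ := Fin.ext hi
      rw [Finset.sum_eq_zero, e1, hc0, sub_self]
      intro j _
      rw [if_neg (by omega)]
    · rw [Finset.sum_eq_single ⟨(i : ℕ) - 1, by omega⟩]
      · rw [if_pos (by simp only; omega), hw]
        simp only
        rw [dif_pos (by omega)]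
        have e : (⟨(i : ℕ) - 1 + 1, by omega⟩ : Fin n) = i := Fin.ext (by simp only; omega)
        rw [e]
      · intro b _ hb
        rw [if_neg]
        intro h3
        apply hb
        apply Fin.ext
        simp only
        omega
      · simp
  have hRH : R = H * (1 + vecMulVec w (Pi.single l 1)) := by
    rw [mul_add, mul_one]
    ext i j
    rw [Matrix.add_apply, Matrix.mul_apply]
    simp only [vecMulVec_apply]
    have e1 : ∑ x, H i x * (w x * (Pi.single l 1 : Fin n → ℂ) j) =
        (cA i - c i) * (Pi.single l 1 : Fin n → ℂ) j := by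
      rw [← hHw, Finset.sum_mul]
      apply Finset.sum_congr rfl
      intro x _
      ring
    rw [e1, hR, hH, Comp_apply, Comp_apply]
    by_cases hj : (j : ℕ) + 1 = n
    · have hjl : j = l := by
        apply Fin.ext; rw [hl]; unfold last; simp only; omega
      rw [if_pos hj, if_pos hj, hjl, Pi.single_eq_same]
      ring
    · have : j ≠ l := by
        intro h; apply hj; rw [h, hl]; unfold last; simp only; omega
      rw [Pi.single_eq_of_ne this, if_neg hj, if_neg hj]
      ring
  have hWW : vecMulVec w (Pi.single l 1 : Fin n → ℂ) * vecMulVec w (Pi.single l 1) = 0 := by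
    rw [vv_mul, hwl, zero_smul]
  have hTT : (1 + vecMulVec w (Pi.single l 1 : Fin n → ℂ)) *
      (1 - vecMulVec w (Pi.single l 1)) = 1 := by
    rw [mul_sub, add_mul, add_mul, one_mul, mul_one, one_mul, hWW]
    abel
  have hHR : H = R * (1 - vecMulVec w (Pi.single l 1)) := by
    rw [hRH, mul_assoc, hTT, mul_one]
  -- the reflections
  set a : Fin n → ℂ := Pi.single l 1 with ha
  set b : Fin n → ℂ := a + (2 : ℂ)⁻¹ • w with hb
  have hal : a l = 1 := by rw [ha, Pi.single_eq_same]
  have hbl : b l = 1 := by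
    rw [hb, Pi.add_apply, Pi.smul_apply, hwl, smul_zero, add_zero, hal]
  have hab : rfl2 a l * rfl2 b l = 1 - vecMulVec w (Pi.single l 1) := by
    rw [rfl2_mul a b l hal hbl, hb, smul_add, smul_smul]
    have e5 : (2 : ℂ) • a - ((2 : ℂ) • a + ((2 : ℂ) * (2 : ℂ)⁻¹) • w) = -w := by
      rw [mul_inv_cancel₀ (by norm_num : (2 : ℂ) ≠ 0), one_smul]
      abel
    rw [e5]
    ext i j
    simp only [Matrix.add_apply, Matrix.sub_apply, vecMulVec_apply, Pi.neg_apply]
    ring
  have hba : rfl2 b l * rfl2 a l = 1 + vecMulVec w (Pi.single l 1) := by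
    rw [rfl2_mul b a l hbl hal, hb, smul_add, smul_smul]
    norm_num
  have hfR : R = flip n * (flip n * R) := by rw [← mul_assoc, flip_sq, one_mul]
  set L : Fin 4 → Mat n := ![flip n, flip n * R, rfl2 a l, rfl2 b l] with hLdef
  have hL0 : L 0 = flip n := rfl
  have hL1 : L 1 = flip n * R := rfl
  have hL2 : L 2 = rfl2 a l := rfl
  have hL3 : L 3 = rfl2 b l := rfl
  have hmem : ∀ i, L i ∈ Submonoid.closure (Set.range L) :=
    fun i => Submonoid.subset_closure ⟨i, rfl⟩
  have hRm : R ∈ Submonoid.closure (Set.range L) := by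
    have h7 := Submonoid.mul_mem _ (hmem 0) (hmem 1)
    rw [hL0, hL1, ← hfR] at h7
    exact h7
  refine ⟨L, ?_, ?_, ?_⟩
  · intro i
    fin_cases i
    · exact flip_sq
    · exact hrev
    · exact rfl2_sq a l hal
    · exact rfl2_sq b l hbl
  · have : List.ofFn L = [flip n, flip n * R, rfl2 a l, rfl2 b l] := by
      simp [hLdef, List.ofFn_succ]
    rw [this]
    simp only [List.prod_cons, List.prod_nil, mul_one]
    rw [hab, ← mul_assoc, ← hfR, ← hHR]
  · refine hORBH n hn0 _ w R (flip n * R * flip n) hw0 hwl ?_ hRm ?_ ?_ ?_ (Comp_hes c)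
    · have h7 := Submonoid.mul_mem _ (hmem 3) (hmem 2)
      rw [hL3, hL2, hba] at h7
      exact h7
    · have h7 := Submonoid.mul_mem _ (hmem 1) (hmem 0)
      rw [hL1, hL0] at h7
      exact h7
    · calc R * (flip n * R * flip n) = (flip n * flip n) * R * (flip n * R * flip n) := by
            rw [flip_sq, one_mul]
        _ = flip n * ((flip n * R) * (flip n * R)) * flip n := by simp only [mul_assoc]
        _ = 1 := by rw [hrev, mul_one, flip_sq]
    · calc flip n * R * flip n * R = (flip n * R) * (flip n * R) := by simp only [mul_assoc]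
        _ = 1 := hrev

/-- PART FOUR. -/
theorem s_FOUR (hORBH : S_ORBH) (hCMP : S_CMP) (hGCJ : S_GCJ) (hn : 2 ≤ n) (A : Mat n)
    (hdet : A.det = 1 ∨ A.det = -1) (hA : Cyclic A) (h2 : n = 2 → A * A ≠ 1) : Good 4 A := by
  obtain ⟨P, P', c, h1, h1', h3⟩ := cyclic_comp A hA
  apply hGCJ n 4 A P P' h1 h1'
  have hd : (P' * A * P).det = A.det := by
    rw [Matrix.det_mul, Matrix.det_mul]
    have : P.det * P'.det = 1 := by rw [← Matrix.det_mul, h1, Matrix.det_one]
    linear_combination A.det * this
  rw [h3] at hd ⊢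
  apply good_comp hORBH hCMP hn c
  · rw [hd]; exact hdet
  · intro hn2 hcc
    apply h2 hn2
    have e1 : P * (Comp n c * Comp n c) * P' = A * A := by
      rw [← h3]
      calc P * (P' * A * P * (P' * A * P)) * P' =
          (P * P') * A * (P * P') * A * (P * P') := by simp only [mul_assoc]
        _ = A * A := by rw [h1, one_mul, mul_one, mul_one]
    rw [← e1, hcc, mul_one, h1]

end Pool.Agent.L7h4.F5
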