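import Mathlib
import Pool.Agent.L7h4.FR.Cert
import Pool.Agent.L7h4.FR.Four
import Pool.Agent.L7h12.F5.All
import Pool.Agent.L7h12.F5.Gcj
import Pool.Agent.L7h29.F5.Ent
import Pool.Agent.L7h29.F5.Scl
import Pool.Agent.L7h46.F5.Cmp
import Pool.Agent.L7h46.F5.Idn
import Pool.Agent.L7h53.F5.Constr
import Pool.Agent.L7h59.F5.Cyc
import Pool.Agent.L7h59.F5.Plc
import Pool.Agent.L7h77.F5.Hess
import Pool.Agent.L7h77.F5.Orbh

/-! Assembly of the linear algebra and of the consequences for formal maps. -/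

set_option autoImplicit false

noncomputable section

namespace Pool.Agent.L7h4.F5

open Matrix
open Pool.Agent.Results.MP_2a1f98_al.ThreeReversibles
open Pool.Agent.Results.MP_2a1f98_al.ThreeReversibles.FormalMap

theorem a_ORBH : S_ORBH := Pool.Agent.L7h77.F5.s_ORBH Pool.Agent.L7h77.F5.s_HESS

theorem a_CON : S_CON :=
  Pool.Agent.L7h53.F5.s_CON Pool.Agent.L7h77.F5.s_HESS a_ORBH Pool.Agent.L7h59.F5.s_CYC
    Pool.Agent.L7h46.F5.s_CMP (Pool.Agent.L7h59.F5.s_PLC Pool.Agent.L7h77.F5.s_HESS)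

theorem a_IDN : S_IDN := Pool.Agent.L7h46.F5.s_IDN a_ORBH Pool.Agent.L7h59.F5.s_CYC

theorem a_ALL (hTRI : S_TRI) : S_ALL :=
  Pool.Agent.L7h12.F5.s_ALL hTRI Pool.Agent.L7h29.F5.s_SCL Pool.Agent.L7h29.F5.s_ENT a_CON a_IDN
    Pool.Agent.L7h12.F5.s_GCJ

theorem Prods_mono_add {n : ℕ} (k j : ℕ) : Prods (Invol n) k ⊆ Prods (Invol n) (k + j) := by
  induction j with
  | zero => exact le_refl _
  | succ j ih => exact ih.trans (Invol_mono _)

theorem five (hPOLY : S_POLY) (hTRI : S_TRI) (n : ℕ) (hn : 4 ≤ n) :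
    Prods (Invol n) 5 = RevGen n ∧ (kNum n = 4 ∨ kNum n = 5) := by
  have h5 : Prods (Invol n) 5 = RevGen n := by
    apply Set.Subset.antisymm
    · rw [← Invol6 (by omega : 2 ≤ n)]
      exact Invol_mono 5
    · intro f hf
      rw [RevGen_eq (by omega : 2 ≤ n)] at hf
      exact good_prods hPOLY f ((a_ALL hTRI).1 n hn f.lin hf)
  refine ⟨h5, ?_⟩
  have h1 : kNum n ≤ 5 := Nat.sInf_le ⟨by norm_num, h5⟩
  have h2 : 4 ≤ kNum n := kNum_lower (by omega)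
  omega

theorem five3 (hPOLY : S_POLY) (hTRI : S_TRI) (f : FormalMap 3) (hf : f ∈ RevGen 3)
    (h1 : f.lin ≠ 1) (h2 : f.lin ≠ -1) : f ∈ Prods (Invol 3) 5 := by
  rw [RevGen_eq (by omega : 2 ≤ 3)] at hf
  exact good_prods hPOLY f ((a_ALL hTRI).2 f.lin hf h1 h2)

theorem four (hPOLY : S_POLY) (n : ℕ) (hn : 2 ≤ n) (f : FormalMap n) (hf : f ∈ RevGen n)
    (hc : Cyclic f.lin) (h2 : n = 2 → f.lin * f.lin ≠ 1) :
    f ∈ Prods (Invol n) 4 ∧ f ∈ Prods (Rever n) 2 := by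
  rw [RevGen_eq hn] at hf
  have h4 := good_prods hPOLY f
    (s_FOUR a_ORBH Pool.Agent.L7h46.F5.s_CMP Pool.Agent.L7h12.F5.s_GCJ hn f.lin hf hc h2)
  refine ⟨h4, ?_⟩
  obtain ⟨s, hs, hp⟩ := h4
  refine ⟨![s 0 * s 1, s 2 * s 3], ?_, ?_⟩
  · intro i
    fin_cases i
    · exact rever_of_two (hs 0) (hs 1)
    · exact rever_of_two (hs 2) (hs 3)
  · rw [← hp]
    simp [List.ofFn_succ, mul_assoc]

end Pool.Agent.L7h4.F5
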