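import Mathlib

/-!
# Project FR: products of involutions among formal maps of (C^n, 0) (problem MP_2a1f98_al)

THEOREM.  For every n >= 2 every formal map F of (C^n,0) with det(linear part) = 1 or -1 is a
composition of 6 involutions; so it is a composition of 3 reversible maps.
(Known before: 9 + 6 ceil(log_2 n) involutions, 2 + 3 ceil(log_2 n) reversible maps.)

PROOF.
(1) Linear algebra (`S_LIN`).  Lambda = L_1 ... L_6 with involutive matrices such that the group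
    generated by the L_i contains, in suitable coordinates, for each k a transvection
    `1 + w (x) e_k^*`, `w ≠ 0`, `w_k = 0`.
(2) (`S_CERT`, `S_SUR`)  Such a group has no invariants on homogeneous vector fields of degree
    q >= 2, and this makes the linearised equation of (3) solvable at each order q >= 2.
(3) (`S_STEP`, `S_LIM`)  Successive approximation: involutive jets lift, and the product can be
    corrected at each order.
-/

set_option autoImplicit false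

noncomputable section

namespace Pool.Agent.L7h4.FR

open MvPowerSeries

/-- `n`-tuples of formal power series in `n` variables. -/
abbrev FM (n : ℕ) := Fin n → MvPowerSeries (Fin n) ℂ

/-- composition `f ∘ g`. -/
def comp {n : ℕ} (f g : FM n) : FM n := fun i => MvPowerSeries.subst g (f i)

/-- the identity map. -/
def one (n : ℕ) : FM n := fun i => MvPowerSeries.X i

/-- zero constant terms. -/
def ZC {n : ℕ} (f : FM n) : Prop := ∀ i, MvPowerSeries.constantCoeff (f i) = 0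

/-- the linear part. -/
def lin {n : ℕ} (f : FM n) : Matrix (Fin n) (Fin n) ℂ :=
  Matrix.of fun i j => MvPowerSeries.coeff (Finsupp.single j 1) (f i)

/-- agreement up to total degree `q`. -/
def Eqv {n : ℕ} (q : ℕ) (f g : FM n) : Prop :=
  ∀ i, ∀ α : Fin n →₀ ℕ, α.degree ≤ q → MvPowerSeries.coeff α (f i) = MvPowerSeries.coeff α (g i)

/-- polynomial vector fields. -/
abbrev PF (n : ℕ) := Fin n → MvPolynomial (Fin n) ℂ

/-- homogeneous of degree `q`. -/
def Hom {n : ℕ} (q : ℕ) (v : PF n) : Prop := ∀ i, (v i).IsHomogeneous q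

/-- `M · v`. -/
def actL {n : ℕ} (M : Matrix (Fin n) (Fin n) ℂ) (v : PF n) : PF n :=
  fun i => ∑ j, MvPolynomial.C (M i j) * v j

/-- `v ∘ M`. -/
def actR {n : ℕ} (v : PF n) (M : Matrix (Fin n) (Fin n) ℂ) : PF n :=
  fun i => MvPolynomial.bind₁ (fun j => ∑ k, MvPolynomial.C (M j k) * MvPolynomial.X k) (v i)

/-- a polynomial vector field as a tuple of power series. -/
def up {n : ℕ} (v : PF n) : FM n := fun i => (v i : MvPowerSeries (Fin n) ℂ)

/-- composition of a list of formal maps. -/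
def compList {n : ℕ} : List (FM n) → FM n
  | [] => one n
  | s :: t => comp s (compList t)

/-- the first order change of the product: `v_i` changes the factor `s_i` (linear part `L_i`)
by `v_i ∘ L_i - L_i v_i`. -/
def Dl {n : ℕ} : List (Matrix (Fin n) (Fin n) ℂ × PF n) → PF n
  | [] => 0
  | (L, v) :: t => actR (actR v L - actL L v) (t.map Prod.fst).prod + actL L (Dl t)

/-- solvability of the linearised equation in degree `q`. -/
def Sur {n : ℕ} (q : ℕ) (L : List (Matrix (Fin n) (Fin n) ℂ)) : Prop :=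
  ∀ e : PF n, Hom q e → ∃ t : List (Matrix (Fin n) (Fin n) ℂ × PF n),
    t.map Prod.fst = L ∧ (∀ p ∈ t, Hom q p.2) ∧ Dl t = e

/-! ## Parts: basic facts about composition -/

/-- PART BAS (Mathlib: MvPowerSeries.subst_comp_subst_apply, hasSubst_of_constantCoeff_zero,
coeff_subst, ...): associativity, unit, constant terms and linear part of a composition. -/
def S_BAS : Prop := ∀ n : ℕ,
  (∀ f g h : FM n, ZC g → ZC h → comp (comp f g) h = comp f (comp g h)) ∧
  (∀ f : FM n, comp f (one n) = f) ∧ (∀ f : FM n, ZC f → comp (one n) f = f) ∧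
  (∀ f g : FM n, ZC f → ZC g → ZC (comp f g) ∧ lin (comp f g) = lin f * lin g)

/-- PART CNG: the coefficients of `f ∘ g` up to degree `q` depend only on those of `f` and `g`.
(coefficient of `f(g)` at `α`: finite sum of `coeff β f * coeff α (∏ g_i^β_i)`; the terms with
`β.degree > α.degree` vanish because the order of `∏ g_i^β_i` is at least `β.degree`; and
congruence mod (degree > q) is compatible with products.) -/
def S_CNG : Prop := ∀ (n q : ℕ) (f f' g g' : FM n), ZC g → ZC g' → Eqv q f f' → Eqv q g g' →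
  Eqv q (comp f g) (comp f' g')

/-- PART LNZ: first order expansion, `q ≥ 2`:
`(f + v) ∘ (g + w) ≡ f ∘ g + v ∘ lin g + lin f · w` up to degree `q`. -/
def S_LNZ : Prop := ∀ (n q : ℕ) (f g : FM n) (v w : PF n), 2 ≤ q → ZC f → ZC g → Hom q v → Hom q w →
  Eqv q (comp (f + up v) (g + up w)) (comp f g + up (actR v (lin g)) + up (actL (lin f) w))

/-- PART ALG: rules for `actL`, `actR`, `Hom`. -/
def S_ALG : Prop := ∀ n : ℕ,
  (∀ (M N : Matrix (Fin n) (Fin n) ℂ) (v : PF n), actL (M * N) v = actL M (actL N v)) ∧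
  (∀ (M N : Matrix (Fin n) (Fin n) ℂ) (v : PF n), actR v (M * N) = actR (actR v M) N) ∧
  (∀ (M N : Matrix (Fin n) (Fin n) ℂ) (v : PF n), actL M (actR v N) = actR (actL M v) N) ∧
  (∀ (M : Matrix (Fin n) (Fin n) ℂ) (v w : PF n), actL M (v + w) = actL M v + actL M w) ∧
  (∀ (M : Matrix (Fin n) (Fin n) ℂ) (v w : PF n), actR (v + w) M = actR v M + actR w M) ∧
  (∀ (M : Matrix (Fin n) (Fin n) ℂ) (c : ℂ) (v : PF n), actL M (c • v) = c • actL M v) ∧
  (∀ (M : Matrix (Fin n) (Fin n) ℂ) (c : ℂ) (v : PF n), actR (c • v) M = c • actR v M) ∧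
  (∀ v : PF n, actL 1 v = v) ∧ (∀ v : PF n, actR v 1 = v) ∧
  (∀ (q : ℕ) (M : Matrix (Fin n) (Fin n) ℂ) (v : PF n), Hom q v → Hom q (actL M v) ∧
    Hom q (actR v M))

/-! ## Part STEP: one step of the successive approximation -/

/-- PART STEP (uses `S_BAS`, `S_CNG`, `S_LNZ`, `S_ALG` as hypotheses).
`s : List (FM n)` with linear parts `L`, `s_i ∘ s_i ≡_q 1`, `compList s ≡_q F`; then there is `s'`,
termwise `≡_q s`, with `s'_i ∘ s'_i ≡_{q+1} 1`, `compList s' ≡_{q+1} F`.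
Proof: (a) lift: `s ∘ s ≡_{q+1} 1 + e`, `e` homogeneous of degree `q+1`; from
`(s∘s)∘s = s∘(s∘s)`: `e ∘ L = L e`; put `u = -(1/2) L e`, `s' = s + u`: then
`s'∘s' ≡_{q+1} 1 + e + u∘L + L u = 1`.
(b) `compList s' ≡_{q+1} F + e`; by `Sur (q+1) L` take `t` with `Dl t = -e` and replace `s'_i` by
`s'_i + (v_i∘L_i - L_i v_i)`: involutivity up to degree `q+1` is kept since
`(v∘L - Lv)∘L + L(v∘L - Lv) = 0`, and the product changes by `Dl t`. -/
def S_STEP : Prop := ∀ (n q : ℕ) (L : List (Matrix (Fin n) (Fin n) ℂ)) (F : FM n) (s : List (FM n)),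
  1 ≤ q → (∀ M ∈ L, M * M = 1) → Sur (q + 1) L → ZC F → (∀ f ∈ s, ZC f) → s.map lin = L →
  (∀ f ∈ s, Eqv q (comp f f) (one n)) → Eqv q (compList s) F →
  ∃ s' : List (FM n), (∀ f ∈ s', ZC f) ∧ s'.map lin = L ∧
    (∀ f ∈ s', Eqv (q + 1) (comp f f) (one n)) ∧ Eqv (q + 1) (compList s') F ∧
    List.Forall₂ (Eqv q) s s'

/-- PART LIM (uses `S_BAS`, `S_CNG`, `S_STEP` as hypotheses): the limit.  The start (q = 1) is the
list of linear maps `x ↦ L_i x`. -/
def S_LIM : Prop := ∀ (n : ℕ) (L : List (Matrix (Fin n) (Fin n) ℂ)) (F : FM n),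
  (∀ M ∈ L, M * M = 1) → (∀ q, 2 ≤ q → Sur q L) → ZC F → L.prod = lin F →
  ∃ s : List (FM n), s.length = L.length ∧ (∀ f ∈ s, ZC f ∧ comp f f = one n) ∧ compList s = F

/-! ## Parts SUR and CERT: solvability from transvections -/

/-- PART CERT.  Let `W` be a subspace of the homogeneous vector fields of degree `q ≥ 2` (as a
submodule of `PF n`), and suppose that for every `k` there is `w ≠ 0`, `w k = 0` such that for
every natural `m` and every `v` of degree `q`: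
`v - (1 + m w⊗e_k) · v ∘ (1 - m w⊗e_k) ∈ W`.  Then `W` contains all of them.
Proof: expand in powers of `m`; by Vandermonde (or a functional and a polynomial with infinitely
many roots) the linear coefficient lies in `W`:  (*)  `v_k • w - X_k ∂_w v ∈ W`, where
`∂_w v = ∑ w_i ∂v/∂x_i`.  Take `v = p e_j`, `j ≠ k`:  `X_k ∂_w p e_j ∈ W` for all `p` of degree `q`;
pick `i` with `w_i ≠ 0` (so `i ≠ k`); by downward induction on the exponent of `X_i` in the monomial
`r` of degree `q-1`:  `X_k r e_j ∈ W` for all `r`.  (A)  So all monomials `x^α e_j` with `α_k ≥ 1`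
for some `k ≠ j` are in `W`; there remain `x_k^q e_k`: in (*) take `v = x_k^{q-1} x_i e_k`:
`x_k^{q-1} x_i w - w_i x_k^q e_k ∈ W`, and `x_k^{q-1} x_i w` is in `W` by (A), since `w_k = 0`,
`q ≥ 2`. -/
def S_CERT : Prop := ∀ (n q : ℕ) (W : Submodule ℂ (PF n)), 2 ≤ q →
  (∀ k : Fin n, ∃ w : Fin n → ℂ, w ≠ 0 ∧ w k = 0 ∧ ∀ m : ℕ, ∀ v : PF n, Hom q v →
    v - actL (1 + (m : ℂ) • Matrix.vecMulVec w (Pi.single k 1))
      (actR v (1 - (m : ℂ) • Matrix.vecMulVec w (Pi.single k 1))) ∈ W) →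
  ∀ v : PF n, Hom q v → v ∈ W

/-- PART SUR (uses `S_ALG`, `S_CERT` as hypotheses).
Let `W(L) = {e : e ∘ Λ ∈ {Dl t : t.map fst = L, t_i homogeneous}}`, `Λ = L.prod`; show by induction
on the list that `Γ(L) = {(g, g') : g g' = 1, ∀ v homogeneous, v - g·v∘g' ∈ W(L)}` contains all
`(L_i, L_i)` and is closed under products `(g h, h' g')` (for `L :: rest`: `v - L·v∘L ∈ W`, and
`L·W(rest)∘L ⊆ W(L :: rest)`, so `(L g L, L g' L) ∈ Γ(L :: rest)` for `(g, g') ∈ Γ(rest)`); hence it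
contains all `(g, g')` with `g` in the submonoid closure of the `L_i` and `g' = g⁻¹`.
Then conjugate by `P` and apply `S_CERT`; note that `(1 + w⊗e_k)^m = 1 + m w⊗e_k` as `w_k = 0`. -/
def S_SUR : Prop := ∀ (n : ℕ) (L : List (Matrix (Fin n) (Fin n) ℂ)), (∀ M ∈ L, M * M = 1) →
  (∃ P P' : Matrix (Fin n) (Fin n) ℂ, P * P' = 1 ∧ P' * P = 1 ∧ ∀ k : Fin n, ∃ w : Fin n → ℂ,
    w ≠ 0 ∧ w k = 0 ∧ P * (1 + Matrix.vecMulVec w (Pi.single k 1)) * P' ∈
      Submonoid.closure {M | M ∈ L}) →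
  ∀ q, 2 ≤ q → Sur q L

/-! ## Linear algebra -/

/-- unreduced upper Hessenberg matrices. -/
def Hes {n : ℕ} (H : Matrix (Fin n) (Fin n) ℂ) : Prop :=
  (∀ i j : Fin n, (j : ℕ) + 1 < i → H i j = 0) ∧ ∀ i j : Fin n, (j : ℕ) + 1 = i → H i j ≠ 0

/-- PART TRI: triangularisation (compare Pool/Agent/H751R2/GN/TSCH.lean, `TSCH.flag`). -/
def S_TRI : Prop := ∀ (n : ℕ) (A : Matrix (Fin n) (Fin n) ℂ),
  ∃ P P' : Matrix (Fin n) (Fin n) ℂ, P * P' = 1 ∧ P' * P = 1 ∧
    ∀ i j : Fin n, j < i → (P' * A * P) i j = 0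

/-- the signed cycle `e_j ↦ e_{j+1}`, `e_{n-1} ↦ κ e_0`. -/
def cyc (n : ℕ) (κ : ℂ) : Matrix (Fin n) (Fin n) ℂ :=
  Matrix.of fun i j => if (j : ℕ) + 1 = i then 1 else if (i : ℕ) = 0 ∧ (j : ℕ) + 1 = n then κ else 0

/-- the flip `e_j ↦ e_{n-1-j}`. -/
def flip (n : ℕ) : Matrix (Fin n) (Fin n) ℂ :=
  Matrix.of fun i j => if j = i.rev then 1 else 0

/-- PART CYC: for `κ² = 1`, `n ≥ 2`: `flip * flip = 1`, `(cyc κ * flip)^2 = 1`,
`(flip * cyc κ)^2 = 1`, `det (cyc κ) = κ (-1)^(n-1)`, and `A * cyc κ` is unreduced Hessenberg if `A`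
is invertible upper triangular. -/
def S_CYC : Prop := ∀ (n : ℕ) (κ : ℂ), 2 ≤ n → κ * κ = 1 →
  flip n * flip n = 1 ∧ (cyc n κ * flip n) * (cyc n κ * flip n) = 1 ∧
  (flip n * cyc n κ) * (flip n * cyc n κ) = 1 ∧
  (cyc n κ).det = κ * (-1) ^ (n - 1) ∧
  ∀ A : Matrix (Fin n) (Fin n) ℂ, A.det ≠ 0 → (∀ i j : Fin n, j < i → A i j = 0) →
    Hes (A * cyc n κ)

/-- the observability matrix: row `k` is `e_last^* R^k`. -/
def obs (n : ℕ) (hn : 0 < n) (R : Matrix (Fin n) (Fin n) ℂ) : Matrix (Fin n) (Fin n) ℂ :=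
  Matrix.of fun k j => (R ^ (k : ℕ)) ⟨n - 1, by omega⟩ j

/-- PART HES: for an unreduced Hessenberg matrix the rows `e_last^* H^k`, `k < n`, are
independent (row `k` has entry `≠ 0` at `n-1-k` and `0` left of it). -/
def S_HES : Prop := ∀ (n : ℕ) (hn : 0 < n) (H : Matrix (Fin n) (Fin n) ℂ), Hes H →
  (obs n hn H).det ≠ 0

/-- PART ACK (pole placement; uses `S_HES` as a hypothesis if wanted).  `H` unreduced Hessenberg,
`r` injective with `∏ r_i = det H ≠ 0`.  Then there is `w` with `w_last = 0` such that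
`R = H * (1 + w ⊗ e_last)` has eigenvalues `r_i`: `R V = V diag(r)`, `V` invertible.
Proof: `y` with `e_last^* H^k y = δ_{k,n-1}` (`obs` invertible), `x = - ∏(H - r_j) y`,
`v_i = ∏_{j ≠ i} (H - r_j) y`; `e_last^* v_i = 1` (monic polynomial of degree `n-1`), so
`(H + x⊗e_last) v_i = H v_i - (H - r_i) v_i = r_i v_i`; eigenvectors for distinct eigenvalues are
independent; `w = H⁻¹ x`; `det R = det H (1 + w_last)` gives `w_last = 0`. -/
def S_ACK : Prop := ∀ (n : ℕ) (hn : 0 < n) (H : Matrix (Fin n) (Fin n) ℂ) (r : Fin n → ℂ), Hes H →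
  H.det ≠ 0 → Function.Injective r → ∏ i, r i = H.det →
  ∃ (w : Fin n → ℂ) (V V' : Matrix (Fin n) (Fin n) ℂ), w ⟨n - 1, by omega⟩ = 0 ∧ V * V' = 1 ∧
    V' * V = 1 ∧
    H * (1 + Matrix.vecMulVec w (Pi.single (⟨n - 1, by omega⟩ : Fin n) 1)) =
      V * Matrix.diagonal r * V'

/-- PART REV: for `r_{rev i} = r_i⁻¹`, `r_i ≠ 0`: `V diag(r) V'` is a product of two involutions;
and a transvection `1 - w⊗e_k`, `w_k = 0`, is a product of two involutions
(`(1 - 2a⊗e_k)(1 - 2a'⊗e_k) = 1 + 2(a - a')⊗e_k` for `a_k = a'_k = 1`, `a = e_k`,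
`a' = e_k + w/2`). -/
def S_REV : Prop := ∀ n : ℕ,
  (∀ (V V' : Matrix (Fin n) (Fin n) ℂ) (r : Fin n → ℂ), V * V' = 1 → V' * V = 1 →
    (∀ i, r i * r i.rev = 1) → ∃ A B : Matrix (Fin n) (Fin n) ℂ, A * A = 1 ∧ B * B = 1 ∧
      A * B = V * Matrix.diagonal r * V') ∧
  (∀ (k : Fin n) (w : Fin n → ℂ), w k = 0 → ∃ A B : Matrix (Fin n) (Fin n) ℂ, A * A = 1 ∧
    B * B = 1 ∧ A * B = 1 - Matrix.vecMulVec w (Pi.single k 1))

/-- PART SPC: the spectrum `r_i = b^(n-1-2i)`, `b ∈ ℕ`, `b ≥ 2`: injective, `r_i r_{rev i} = 1`,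
product 1, and `b` can be chosen such that the first one is not an eigenvalue of `H`. -/
def S_SPC : Prop := ∀ (n : ℕ) (hn : 2 ≤ n) (H : Matrix (Fin n) (Fin n) ℂ), ∃ r : Fin n → ℂ,
  Function.Injective r ∧ (∀ i, r i * r i.rev = 1) ∧ ∏ i, r i = 1 ∧
  (H - Matrix.scalar (Fin n) (r ⟨0, by omega⟩)).det ≠ 0

/-- PART LIN (assembly of the linear algebra; uses S_TRI, S_CYC, S_HES, S_ACK, S_REV, S_SPC as
hypotheses).  `P' Λ P = A` upper triangular, `κ = (-1)^(n-1) det Λ`, `H = A cyc κ`, `det H = 1`,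
`R = H (1 + w⊗e_last) = V diag(r) V'`; `w ≠ 0` since `r_0` is not an eigenvalue of `H`;
`A = R (1 - w⊗e_last) (cyc κ)⁻¹ `, `(cyc κ)⁻¹ = flip * (cyc κ * flip)` (as
`(cyc κ * flip)^2 = 1`); six involutions, conjugated by `P`.
Transvections: `T = 1 + w⊗e_last` is in the closure (it is the product of the two reflections in
the other order), `R` is, and `R⁻¹` (products of involutions in the other order).
`R^{-k} T R^k = 1 + (R^{-k} w)⊗(e_last^* R^k)`, the `e_last^* R^k` are the rows `E_k` of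
`E = obs R` (invertible by S_HES, as `R` is also unreduced Hessenberg: only its last column differs
from `H`); `E (R^{-k} T R^k) E⁻¹ = 1 + (E R^{-k} w)⊗e_k`, and `(E R^{-k} w)_k = e_last^* w = 0`. -/
def S_LIN : Prop := ∀ (n : ℕ), 2 ≤ n → ∀ A : Matrix (Fin n) (Fin n) ℂ, (A.det = 1 ∨ A.det = -1) →
  ∃ L : List (Matrix (Fin n) (Fin n) ℂ), L.length = 6 ∧ (∀ M ∈ L, M * M = 1) ∧ L.prod = A ∧
    ∃ P P' : Matrix (Fin n) (Fin n) ℂ, P * P' = 1 ∧ P' * P = 1 ∧ ∀ k : Fin n, ∃ w : Fin n → ℂ,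
      w ≠ 0 ∧ w k = 0 ∧ P * (1 + Matrix.vecMulVec w (Pi.single k 1)) * P' ∈
        Submonoid.closure {M | M ∈ L}

/-! ## The final theorem -/

/-- a formally invertible formal map. -/
def IsMap {n : ℕ} (f : FM n) : Prop := ZC f ∧ IsUnit (lin f).det

/-- an involution (the identity counts). -/
def IsInvol {n : ℕ} (f : FM n) : Prop := IsMap f ∧ comp f f = one n

/-- a reversible map: `h f h⁻¹ = f⁻¹` for a formal map `h`; written `h f h' f = 1 = f h f h'` with
`h h' = 1 = h' h`. -/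
def IsRev {n : ℕ} (f : FM n) : Prop := IsMap f ∧ ∃ h h' : FM n, IsMap h ∧ IsMap h' ∧
  comp h h' = one n ∧ comp h' h = one n ∧
  comp (comp (comp h f) h') f = one n ∧ comp f (comp (comp h f) h') = one n

/-- the compositions of `j` elements of `S`. -/
def Pow {n : ℕ} (S : FM n → Prop) (j : ℕ) (f : FM n) : Prop :=
  ∃ s : List (FM n), s.length = j ∧ (∀ g ∈ s, S g) ∧ compList s = f

/-- `R^∞`. -/
def RInf {n : ℕ} (f : FM n) : Prop := ∃ j, 1 ≤ j ∧ Pow (IsRev (n := n)) j f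

/-- PART UPP (uses S_BAS and the conclusion of S_LIM and S_LIN, S_SUR as hypotheses): everything in
`R^∞` is a product of 6 involutions and of 3 reversible maps. (`det` of the linear part of a
reversible map is `±1`; a product of two involutions is reversible.) -/
def S_UPP : Prop := ∀ n : ℕ, 2 ≤ n → ∀ f : FM n,
  (RInf f ↔ IsMap f ∧ ((lin f).det = 1 ∨ (lin f).det = -1)) ∧
  (RInf f ↔ Pow (IsInvol (n := n)) 6 f) ∧ (RInf f ↔ Pow (IsRev (n := n)) 3 f)

/-- PART LOW: (a) for `n ≥ 2` some element of `R^∞` is not reversible: `x ↦ λ x`, `λ = exp(iπ/n)`...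
any scalar `λ` with `λ^n = ±1` and `λ² ≠ 1` (for n = 2: `λ = i`; the linear part of a reversible map
is similar to its inverse, and `λ ≠ λ⁻¹`).
(b) for `n ≥ 3` some element of `R^∞` is not a product of 3 involutions: scalar `λ` with
`λ^n = -1` or `1` and `λ^4 ≠ 1`: linear parts `L1 L2 L3 = λ`, so `L1 L2 = λ L3` (as `L3² = 1`) and
`L2 L1 = (L1 L2)⁻¹ = λ⁻¹ L3`; `L2 L1 = L1 (L1 L2) L1 = λ L1 L3 L1`; so
`λ² L1 L3 L1 = L3`; square: `λ^4 = 1`.  Take `λ = exp(iπ/n)` (n ≥ 3: `λ^4 = 1` would need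
`4π/n ∈ 2πℤ`, so n ≤ 2), `λ^n = -1`. -/
def S_LOW : Prop := (∀ n : ℕ, 2 ≤ n → ∃ c : ℂ, c ^ n = -1 ∧
    ¬ IsRev (n := n) (fun i => MvPowerSeries.C c * MvPowerSeries.X i)) ∧
  (∀ n : ℕ, 3 ≤ n → ∃ c : ℂ, c ^ n = -1 ∧
    ¬ Pow (IsInvol (n := n)) 3 (fun i => MvPowerSeries.C c * MvPowerSeries.X i))

/-- the final theorem: `R^∞ = R³ = I⁶` for `n ≥ 2`, `R ≠ R^∞` for `n ≥ 2`, `I³ ≠ R^∞` for
`n ≥ 3`. -/
def S_FIN : Prop := (∀ n : ℕ, 2 ≤ n → ∀ f : FM n,
    (RInf f ↔ Pow (IsInvol (n := n)) 6 f) ∧ (RInf f ↔ Pow (IsRev (n := n)) 3 f)) ∧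
  (∀ n : ℕ, 2 ≤ n → ∃ f : FM n, RInf f ∧ ¬ IsRev f) ∧
  (∀ n : ℕ, 3 ≤ n → ∃ f : FM n, RInf f ∧ ¬ Pow (IsInvol (n := n)) 3 f)

end Pool.Agent.L7h4.FR
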